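import Pool.Agent.helper24.SK.Spec

/-!
# Project sk (MP_5628fe_nt), row VDK: smooth polynomials with a character
-/

set_option autoImplicit false

namespace Pool.Agent.SK

open Finset ArithmeticFunction MeasureTheory
open Pool.Agent.CH (nit DPb Win Tset ph)
open Pool.Agent.EC (tri vN fN XN TL AdT)
open Pool.Agent.helper85.BVP (tau)
open GD (ks)

private theorem VDK_nit (t x : ℝ) : ‖nit t x‖ = 1 := by
  unfold nit
  exact Complex.norm_exp_ofReal_mul_I _

private theorem VDK_mul (t x y : ℝ) (hx : 0 < x) (hy : 0 < y) : nit t (x * y) = nit t x * nit t y := by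
  unfold nit
  rw [← Complex.exp_add, Real.log_mul hx.ne' hy.ne']
  congr 1
  push_cast
  ring

/-- interval slightly too long -/
private theorem VDK_int (C : ℝ) (hC0 : 0 < C) (hC : ∀ (M a b : ℕ) (t θ : ℝ), 1 ≤ M → M ≤ a → a ≤ b → b ≤ 2 * M →
    0 ≤ θ → θ ≤ 1 → 1 ≤ |t| → ‖∑ n ∈ Ico a b, nit t (n + θ)‖ ≤ C * (M / |t| + √|t|))
    (M a b : ℕ) (t θ : ℝ) (hM : 1 ≤ M) (h1 : M ≤ a) (h2 : a ≤ b) (h3 : b ≤ 2 * M + 2) (h4 : 0 ≤ θ) (h5 : θ ≤ 1)
    (h6 : 1 ≤ |t|) : ‖∑ n ∈ Ico a b, nit t (n + θ)‖ ≤ C * (M / |t| + √|t|) + 2 := by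
  have hpos : 0 ≤ C * (M / |t| + √|t|) := by positivity
  have htriv : ∀ a b : ℕ, ‖∑ n ∈ Ico a b, nit t (n + θ)‖ ≤ ((b - a : ℕ) : ℝ) := by
    intro a b
    refine (norm_sum_le _ _).trans ?_
    have h0 : ∑ n ∈ Ico a b, ‖nit t ((n : ℝ) + θ)‖ = ∑ n ∈ Ico a b, (1 : ℝ) :=
      Finset.sum_congr rfl fun n _ => VDK_nit t (n + θ)
    rw [h0, Finset.sum_const, Nat.card_Ico, nsmul_eq_mul, mul_one]
  by_cases h7 : 2 * M ≤ a
  · have h8 := htriv a b
    have h9 : ((b - a : ℕ) : ℝ) ≤ 2 := by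
      have : b - a ≤ 2 := by omega
      exact_mod_cast this
    linarith
  · have h8 : a ≤ min b (2 * M) := le_min h2 (by omega)
    rw [← Finset.sum_Ico_consecutive (fun n : ℕ => nit t (n + θ)) h8 (min_le_left b (2 * M))]
    refine (norm_add_le _ _).trans ?_
    refine add_le_add (hC M a (min b (2 * M)) t θ hM h1 h8 (min_le_right _ _) h4 h5 h6) ?_
    refine (htriv _ _).trans ?_
    have : b - min b (2 * M) ≤ 2 := by omega
    exact_mod_cast this

/-- one residue class -/
private theorem VDK_res (q M u s : ℕ) (hq : 1 ≤ q) (hs : s < q) (_hM : q ≤ M) (_hu : M ≤ u) (f : ℕ → ℂ) :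
    ∑ n ∈ (Ico M u).filter (fun n => n % q = s), f n =
      ∑ m ∈ Ico ((M - s + (q - 1)) / q) ((u - s + (q - 1)) / q), f (q * m + s) := by
  have hq0 : 0 < q := hq
  refine Finset.sum_nbij' (fun n => n / q) (fun m => q * m + s) ?_ ?_ ?_ ?_ ?_
  · intro n hn
    rw [Finset.mem_filter, Finset.mem_Ico] at hn
    obtain ⟨⟨h1, h2⟩, h3⟩ := hn
    have h4 := Nat.div_add_mod n q
    rw [h3] at h4
    rw [Finset.mem_Ico]
    constructor
    · rw [← Nat.lt_succ_iff, Nat.div_lt_iff_lt_mul hq0]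
      have : (n / q).succ * q = q * (n / q) + q := by rw [Nat.succ_mul, Nat.mul_comm]
      rw [this]
      omega
    · rw [← Nat.succ_le_iff, Nat.le_div_iff_mul_le hq0]
      have : (n / q).succ * q = q * (n / q) + q := by rw [Nat.succ_mul, Nat.mul_comm]
      rw [this]
      omega
  · intro m hm
    rw [Finset.mem_Ico] at hm
    obtain ⟨h1, h2⟩ := hm
    rw [← Nat.lt_succ_iff, Nat.div_lt_iff_lt_mul hq0] at h1
    rw [← Nat.succ_le_iff, Nat.le_div_iff_mul_le hq0] at h2
    have e : m.succ * q = q * m + q := by rw [Nat.succ_mul, Nat.mul_comm]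
    rw [e] at h1 h2
    rw [Finset.mem_filter, Finset.mem_Ico]
    refine ⟨⟨?_, ?_⟩, ?_⟩
    · omega
    · omega
    · rw [Nat.mul_add_mod, Nat.mod_eq_of_lt hs]
  · intro n hn
    rw [Finset.mem_filter] at hn
    have h4 := Nat.div_add_mod n q
    rw [hn.2] at h4
    exact h4
  · intro m _
    rw [Nat.mul_add_div hq0, Nat.div_eq_of_lt hs, add_zero]
  · intro n hn
    rw [Finset.mem_filter] at hn
    have h4 := Nat.div_add_mod n q
    rw [hn.2] at h4
    change f n = f (q * (n / q) + s)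
    rw [h4]

/-- partial sums -/
private theorem VDK_par (C : ℝ) (hC0 : 0 < C) (hC : ∀ (M a b : ℕ) (t θ : ℝ), 1 ≤ M → M ≤ a → a ≤ b → b ≤ 2 * M →
    0 ≤ θ → θ ≤ 1 → 1 ≤ |t| → ‖∑ n ∈ Ico a b, nit t (n + θ)‖ ≤ C * (M / |t| + √|t|))
    (q : ℕ) (hq : 1 ≤ q) (χ : DirichletCharacter ℂ q) (M u : ℕ) (t : ℝ) (hM : 1 ≤ M) (hu1 : M ≤ u)
    (hu2 : u ≤ 2 * M) (ht : 1 ≤ |t|) :
    ‖∑ n ∈ Ico M u, χ n * nit t n‖ ≤ (C + 2) * q * (M / |t| + √|t|) := by
  have hq0 : 0 < q := hq
  have hqr : (0 : ℝ) < q := by exact_mod_cast hq0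
  have ht0 : 0 < |t| := by linarith
  have hsq : 1 ≤ √|t| := Real.one_le_sqrt.2 ht
  have hMt : 0 ≤ (M : ℝ) / |t| := by positivity
  by_cases hMq : M < q
  · have h1 : ‖∑ n ∈ Ico M u, χ n * nit t n‖ ≤ ((u - M : ℕ) : ℝ) := by
      refine (norm_sum_le _ _).trans ?_
      have : ∑ n ∈ Ico M u, ‖χ n * nit t n‖ ≤ ∑ n ∈ Ico M u, (1 : ℝ) := by
        refine Finset.sum_le_sum fun n _ => ?_
        rw [norm_mul, VDK_nit, mul_one]
        exact DirichletCharacter.norm_le_one χ _
      refine this.trans ?_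
      rw [Finset.sum_const, Nat.card_Ico, nsmul_eq_mul, mul_one]
    have h2 : ((u - M : ℕ) : ℝ) ≤ q := by
      have : u - M ≤ q := by omega
      exact_mod_cast this
    refine h1.trans (h2.trans ?_)
    have h3 : 1 ≤ (C + 2) * (M / |t| + √|t|) := by nlinarith
    nlinarith
  · have hqM : q ≤ M := not_lt.1 hMq
    have hfib : ∑ n ∈ Ico M u, χ n * nit t n =
        ∑ s ∈ range q, ∑ n ∈ (Ico M u).filter (fun n => n % q = s), χ n * nit t n := by
      symm
      refine Finset.sum_fiberwise_of_maps_to (g := fun n : ℕ => n % q) ?_ _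
      intro n _
      exact Finset.mem_range.2 (Nat.mod_lt n hq0)
    rw [hfib]
    refine (norm_sum_le _ _).trans ?_
    have hone : ∀ s ∈ range q, ‖∑ n ∈ (Ico M u).filter (fun n => n % q = s), χ n * nit t n‖ ≤
        (C + 2) * (M / |t| + √|t|) := by
      intro s hs
      rw [Finset.mem_range] at hs
      rw [VDK_res q M u s hq hs hqM hu1 (fun n => χ n * nit t n)]
      have hM1 : 1 ≤ M / q := (Nat.one_le_div_iff hq0).2 hqM
      have hterm : ∀ m ∈ Ico ((M - s + (q - 1)) / q) ((u - s + (q - 1)) / q),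
          χ ((q * m + s : ℕ) : ZMod q) * nit t ((q * m + s : ℕ) : ℝ) =
            (χ (s : ZMod q) * nit t q) * nit t (m + (s : ℝ) / q) := by
        intro m hm
        rw [Finset.mem_Ico] at hm
        have hm1 : 1 ≤ m := by
          have : M / q ≤ (M - s + (q - 1)) / q := Nat.div_le_div_right (by omega)
          omega
        have hmr : (1 : ℝ) ≤ m := by exact_mod_cast hm1
        have e1 : ((q * m + s : ℕ) : ZMod q) = (s : ZMod q) := by
          push_cast
          rw [ZMod.natCast_self, zero_mul, zero_add]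
        have hsr : (0 : ℝ) ≤ (s : ℝ) / q := by positivity
        have e2 : ((q * m + s : ℕ) : ℝ) = (q : ℝ) * (m + (s : ℝ) / q) := by
          push_cast
          rw [mul_add, mul_div_cancel₀ _ hqr.ne']
        rw [e1, e2, VDK_mul t q (m + (s : ℝ) / q) hqr (by linarith)]
        ring
      rw [Finset.sum_congr rfl hterm, ← Finset.mul_sum, norm_mul, norm_mul, VDK_nit, mul_one]
      have hchi : ‖χ (s : ZMod q)‖ ≤ 1 := DirichletCharacter.norm_le_one χ _
      have hint := VDK_int C hC0 hC (M / q) ((M - s + (q - 1)) / q) ((u - s + (q - 1)) / q) t ((s : ℝ) / q) hM1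
        (Nat.div_le_div_right (by omega)) (Nat.div_le_div_right (by omega)) (by
          have h7 := Nat.div_add_mod M q
          have h8 := Nat.mod_lt M hq0
          rw [← Nat.lt_succ_iff, Nat.div_lt_iff_lt_mul hq0]
          have : (2 * (M / q) + 2).succ * q = 2 * (q * (M / q)) + 3 * q := by
            rw [Nat.succ_eq_add_one]
            ring
          rw [this]
          omega) (by positivity) (by
          rw [div_le_one hqr]
          exact_mod_cast hs.le) ht
      have hMM : ((M / q : ℕ) : ℝ) ≤ M := by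
        exact_mod_cast Nat.div_le_self M q
      have h9 : C * (((M / q : ℕ) : ℝ) / |t| + √|t|) + 2 ≤ (C + 2) * (M / |t| + √|t|) := by
        have h10 : ((M / q : ℕ) : ℝ) / |t| ≤ (M : ℝ) / |t| := div_le_div_of_nonneg_right hMM ht0.le
        nlinarith
      calc _ ≤ 1 * ‖∑ m ∈ Ico ((M - s + (q - 1)) / q) ((u - s + (q - 1)) / q), nit t (m + (s : ℝ) / q)‖ :=
            mul_le_mul_of_nonneg_right hchi (norm_nonneg _)
        _ ≤ C * (((M / q : ℕ) : ℝ) / |t| + √|t|) + 2 := by rw [one_mul]; exact hint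
        _ ≤ _ := h9
    refine (Finset.sum_le_sum hone).trans ?_
    rw [Finset.sum_const, Finset.card_range, nsmul_eq_mul]
    exact le_of_eq (by ring)

theorem VDK (h1 : VD1_stmt) (h2 : ABL_stmt) : VDK_stmt := by
  obtain ⟨C, hC0, hC⟩ := h1
  refine ⟨2 * (C + 2), by linarith, ?_⟩
  intro q hq χ X h M t hh hM ht
  have hq0 : 0 < q := hq
  have hqr : (0 : ℝ) < q := by exact_mod_cast hq0
  have ht0 : 0 < |t| := by linarith
  obtain ⟨K, hK⟩ : ∃ K : ℝ, K = (C + 2) * q * (M / |t| + √|t|) := ⟨_, rfl⟩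
  have hK0 : 0 ≤ K := by rw [hK]; positivity
  have hlogn : ∀ n : ℕ, 0 ≤ Real.log (n : ℝ) := fun n => Real.log_natCast_nonneg n
  have key := h2 (fun n => χ n * nit t n) (fun n => Real.log n ^ h) (M - 1) (min (2 * M - 1) X) K
    (fun n => pow_nonneg (hlogn n) h)
    (by
      intro m n hm hmn _
      refine pow_le_pow_left₀ (hlogn m) ?_ h
      have hm0 : 0 < m := by omega
      exact Real.log_le_log (by exact_mod_cast hm0) (by exact_mod_cast hmn))
    (by
      intro u hu
      have e1 : Ioc (M - 1) u = Ico M (u + 1) := by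
        ext n
        rw [Finset.mem_Ioc, Finset.mem_Ico]
        omega
      rw [e1]
      by_cases hMu : M ≤ u + 1
      · rw [hK]
        exact VDK_par C hC0 hC q hq χ M (u + 1) t hM hMu (by
          have := hu.trans (min_le_left _ _)
          omega) ht
      · rw [Finset.Ico_eq_empty (by omega), Finset.sum_empty, norm_zero]
        exact hK0)
  have e2 : DPb M (fun m => ((sml X h m : ℝ) : ℂ) * χ m) t =
      ∑ n ∈ Ioc (M - 1) (min (2 * M - 1) X), χ n * nit t n * ((Real.log n ^ h : ℝ) : ℂ) := by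
    unfold DPb
    have e3 : Ioc (M - 1) (min (2 * M - 1) X) = (Ico M (2 * M)).filter (fun n => n ≤ X) := by
      ext n
      rw [Finset.mem_Ioc, Finset.mem_filter, Finset.mem_Ico, le_min_iff]
      omega
    rw [e3, Finset.sum_filter]
    refine Finset.sum_congr rfl fun n hn => ?_
    rw [Finset.mem_Ico] at hn
    have e4 : sml X h n = if 1 ≤ n ∧ n ≤ X then Real.log n ^ h else 0 := rfl
    change ((sml X h n : ℝ) : ℂ) * χ n * nit t n = _
    by_cases hX : n ≤ X
    · rw [e4, if_pos ⟨by omega, hX⟩, if_pos hX]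
      ring
    · rw [e4, if_neg (fun h => hX h.2), if_neg hX]
      simp
  rw [e2]
  refine key.trans ?_
  have hR : Real.log ((min (2 * M - 1) X : ℕ) : ℝ) ^ h ≤ 1 + Real.log (2 * M) := by
    have hM2 : Real.log ((2 * M : ℕ) : ℝ) = Real.log (2 * M) := by push_cast; rfl
    have hpos2 : 0 ≤ Real.log (2 * (M : ℝ)) := by rw [← hM2]; exact hlogn _
    have hle : Real.log ((min (2 * M - 1) X : ℕ) : ℝ) ≤ Real.log (2 * M) := by
      by_cases h0 : min (2 * M - 1) X = 0
      · rw [h0]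
        simpa using hpos2
      · rw [← hM2]
        refine Real.log_le_log (by exact_mod_cast Nat.pos_of_ne_zero h0) ?_
        have : min (2 * M - 1) X ≤ 2 * M := (min_le_left _ _).trans (by omega)
        exact_mod_cast this
    have hcase : h = 0 ∨ h = 1 := by omega
    rcases hcase with h0 | h0
    · rw [h0, pow_zero]
      linarith
    · rw [h0, pow_one]
      linarith
  calc 2 * K * Real.log ((min (2 * M - 1) X : ℕ) : ℝ) ^ h ≤ 2 * K * (1 + Real.log (2 * M)) :=
        mul_le_mul_of_nonneg_left hR (by linarith)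
    _ = 2 * (C + 2) * q * (1 + Real.log (2 * M)) * (M / |t| + √|t|) := by rw [hK]; ring

end Pool.Agent.SK
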